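import Pool.Agent.Lib.helper24.ResGen

set_option autoImplicit false

namespace Pool.Agent.Results.MP_49fec2_al.NotResGen
open Pool.Agent.ResGen

/-- There are a variety of groups and `k < n` such that `F_k` generates the variety while
`F_n` is not residually `k`-generator. -/
theorem result : ∃ (W : Set (FreeGroup ℕ)) (k n : ℕ), k < n ∧ Generates (RelFree W k) W ∧
    ∃ g : RelFree W n, g ≠ 1 ∧
      ∀ (N : Subgroup (RelFree W n)) [N.Normal], KGen k (RelFree W n ⧸ N) → g ∈ N :=
  ⟨WW, 2, 3, by norm_num, main⟩

end Pool.Agent.Results.MP_49fec2_al.NotResGen
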